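import Pool.Agent.Lib.MP_0b6b0e_gt.ZB.Defs

/-!
# Module ME: approximation of gauge functions by gauge functions of class `C^{1,1}`
(the square root of the Moreau envelope of the square).
-/

set_option autoImplicit false
set_option linter.unusedSectionVars false

namespace Pool.Agent.Lib.MP_0b6b0e_gt.ZB.H4

open Pool.Agent.Lib.MP_0b6b0e_gt.ZB

variable {E : Type*} [NormedAddCommGroup E] [InnerProductSpace ℝ E]

/-- The function under the infimum. -/
noncomputable def nz (P : E → ℝ) (t : ℝ) (x z : E) : ℝ := √(P z ^ 2 + (t * ‖x - z‖) ^ 2)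

/-- The envelope. -/
noncomputable def env (P : E → ℝ) (t : ℝ) (x : E) : ℝ := ⨅ z, nz P t x z

lemma minkowski {a b u v : ℝ} : √((a + b) ^ 2 + (u + v) ^ 2) ≤ √(a ^ 2 + u ^ 2) + √(b ^ 2 + v ^ 2) := by
  have h1 := Real.sq_sqrt (show 0 ≤ a ^ 2 + u ^ 2 by positivity)
  have h2 := Real.sq_sqrt (show 0 ≤ b ^ 2 + v ^ 2 by positivity)
  have h3 := Real.sqrt_nonneg (a ^ 2 + u ^ 2)
  have h4 := Real.sqrt_nonneg (b ^ 2 + v ^ 2)
  apply Real.sqrt_le_iff.2
  refine ⟨by positivity, ?_⟩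
  have h5 : a * b + u * v ≤ √(a ^ 2 + u ^ 2) * √(b ^ 2 + v ^ 2) := by
    rw [← Real.sqrt_mul (by positivity)]
    apply Real.le_sqrt_of_sq_le
    nlinarith [sq_nonneg (a * v - b * u)]
  nlinarith

lemma nz_nonneg (P : E → ℝ) (t : ℝ) (x z : E) : 0 ≤ nz P t x z := Real.sqrt_nonneg _

lemma bdd (P : E → ℝ) (t : ℝ) (x : E) : BddBelow (Set.range (nz P t x)) :=
  ⟨0, by rintro _ ⟨z, rfl⟩; exact nz_nonneg P t x z⟩

lemma env_le (P : E → ℝ) (t : ℝ) (x z : E) : env P t x ≤ nz P t x z := ciInf_le (bdd P t x) z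

lemma le_env {P : E → ℝ} {t : ℝ} {x : E} {a : ℝ} (h : ∀ z, a ≤ nz P t x z) : a ≤ env P t x :=
  le_ciInf h

lemma env_nonneg (P : E → ℝ) (t : ℝ) (x : E) : 0 ≤ env P t x := le_env fun z => nz_nonneg P t x z

section

variable {P : E → ℝ} {t : ℝ}

lemma nonneg (hP : IsG P) (x : E) : 0 ≤ P x := by
  obtain ⟨c, hc, h⟩ := hP.lower
  exact le_trans (by positivity) (h x)

lemma nz_smul (hP : IsG P) (x z : E) {c : ℝ} (hc : 0 ≤ c) :
    nz P t (c • x) (c • z) = c * nz P t x z := by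
  unfold nz
  rw [hP.smul c hc, ← smul_sub, norm_smul, Real.norm_of_nonneg hc,
    show (c * P z) ^ 2 + (t * (c * ‖x - z‖)) ^ 2 = c ^ 2 * (P z ^ 2 + (t * ‖x - z‖) ^ 2) by ring,
    Real.sqrt_mul (by positivity), Real.sqrt_sq hc]

lemma env_smul_le (hP : IsG P) (x : E) {c : ℝ} (hc : 0 < c) :
    env P t (c • x) ≤ c * env P t x := by
  have h : c⁻¹ * env P t (c • x) ≤ env P t x := by
    apply le_env
    intro z
    have h1 := env_le P t (c • x) (c • z)
    rw [nz_smul hP x z hc.le] at h1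
    rw [inv_mul_le_iff₀ hc]
    exact h1
  rwa [inv_mul_le_iff₀ hc] at h

lemma env_smul (hP : IsG P) (x : E) {c : ℝ} (hc : 0 ≤ c) :
    env P t (c • x) = c * env P t x := by
  rcases hc.eq_or_lt with rfl | hc
  · rw [zero_smul, zero_mul]
    apply le_antisymm _ (env_nonneg P t 0)
    have h1 := env_le P t 0 0
    have h2 : P 0 = 0 := by
      have := hP.smul 0 le_rfl 0
      rwa [zero_smul, zero_mul] at this
    unfold nz at h1
    rw [h2, sub_zero, norm_zero] at h1
    simpa using h1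
  · apply le_antisymm (env_smul_le hP x hc)
    have h1 := env_smul_le (t := t) hP (c • x) (inv_pos.2 hc)
    rw [smul_smul, inv_mul_cancel₀ hc.ne', one_smul] at h1
    have h2 := mul_le_mul_of_nonneg_left h1 hc.le
    rwa [← mul_assoc, mul_inv_cancel₀ hc.ne', one_mul] at h2

lemma env_add (hP : IsG P) (ht : 0 ≤ t) (x y : E) :
    env P t (x + y) ≤ env P t x + env P t y := by
  have h : ∀ z w, env P t (x + y) ≤ nz P t x z + nz P t y w := by
    intro z w
    refine (env_le P t (x + y) (z + w)).trans ?_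
    refine le_trans ?_ minkowski
    unfold nz
    apply Real.sqrt_le_sqrt
    have h1 : P (z + w) ^ 2 ≤ (P z + P w) ^ 2 :=
      pow_le_pow_left₀ (nonneg hP _) (hP.add z w) 2
    have h2 : (t * ‖x + y - (z + w)‖) ^ 2 ≤ (t * ‖x - z‖ + t * ‖y - w‖) ^ 2 := by
      apply pow_le_pow_left₀ (by positivity)
      rw [← mul_add]
      apply mul_le_mul_of_nonneg_left _ ht
      rw [add_sub_add_comm]
      exact norm_add_le _ _
    exact add_le_add h1 h2
  have h1 : ∀ w, env P t (x + y) - nz P t y w ≤ env P t x := by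
    intro w
    apply le_env
    intro z
    linarith [h z w]
  have h2 : env P t (x + y) - env P t x ≤ env P t y := by
    apply le_env
    intro w
    linarith [h1 w]
  linarith

lemma env_le_self (hP : IsG P) (x : E) : env P t x ≤ P x := by
  have h := env_le P t x x
  unfold nz at h
  rw [sub_self, norm_zero, mul_zero, zero_pow two_ne_zero, add_zero,
    Real.sqrt_sq (nonneg hP x)] at h
  exact h

lemma self_le_env (hP : IsG P) {C : ℝ} (hC : 0 < C) (hU : ∀ x, P x ≤ C * ‖x‖) (ht : 0 < t)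
    (x : E) : P x ≤ (1 + C / t) * env P t x := by
  have hk : 0 < 1 + C / t := by positivity
  have h : (1 + C / t)⁻¹ * P x ≤ env P t x := by
    apply le_env
    intro z
    rw [inv_mul_le_iff₀ hk]
    have h1 : P x ≤ P z + C * ‖x - z‖ := by
      have := hP.add z (x - z)
      rw [add_sub_cancel] at this
      linarith [hU (x - z)]
    have h2 : P z ≤ nz P t x z := by
      unfold nz
      apply Real.le_sqrt_of_sq_le
      nlinarith [sq_nonneg (t * ‖x - z‖)]
    have h3 : t * ‖x - z‖ ≤ nz P t x z := by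
      unfold nz
      apply Real.le_sqrt_of_sq_le
      nlinarith [sq_nonneg (P z)]
    have h4 : C * ‖x - z‖ ≤ C / t * nz P t x z := by
      calc C * ‖x - z‖ = C / t * (t * ‖x - z‖) := by field_simp
        _ ≤ C / t * nz P t x z := mul_le_mul_of_nonneg_left h3 (by positivity)
    calc P x ≤ P z + C * ‖x - z‖ := h1
      _ ≤ nz P t x z + C / t * nz P t x z := add_le_add h2 h4
      _ = (1 + C / t) * nz P t x z := by ring
  rwa [inv_mul_le_iff₀ hk] at h

lemma second (x h : E) {c : ℝ} (hc : 0 < c) (hx : c ≤ env P t x) :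
    env P t (x + h) + env P t (x - h) - 2 * env P t x ≤ t ^ 2 / c * ‖h‖ ^ 2 := by
  have key : ∀ z, env P t (x + h) + env P t (x - h) ≤ 2 * nz P t x z + t ^ 2 / c * ‖h‖ ^ 2 := by
    intro z
    have h1 := env_le P t (x + h) z
    have h2 := env_le P t (x - h) z
    have h3 : c ≤ nz P t x z := hx.trans (env_le P t x z)
    have e1 : nz P t (x + h) z ^ 2 = P z ^ 2 + (t * ‖x + h - z‖) ^ 2 :=
      Real.sq_sqrt (by positivity)
    have e2 : nz P t (x - h) z ^ 2 = P z ^ 2 + (t * ‖x - h - z‖) ^ 2 :=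
      Real.sq_sqrt (by positivity)
    have e3 : nz P t x z ^ 2 = P z ^ 2 + (t * ‖x - z‖) ^ 2 := Real.sq_sqrt (by positivity)
    have e4 : ‖x + h - z‖ ^ 2 + ‖x - h - z‖ ^ 2 = 2 * (‖x - z‖ ^ 2 + ‖h‖ ^ 2) := by
      have := parallelogram_law_with_norm ℝ (x - z) h
      rw [show x + h - z = x - z + h by abel, show x - h - z = x - z - h by abel]
      nlinarith
    set a := nz P t (x + h) z
    set b := nz P t (x - h) z
    set m := nz P t x z
    have hm : 0 < m := hc.trans_le h3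
    have e5 : a ^ 2 + b ^ 2 = 2 * m ^ 2 + 2 * (t ^ 2 * ‖h‖ ^ 2) := by
      rw [e1, e2, e3]
      have : t ^ 2 * (‖x + h - z‖ ^ 2 + ‖x - h - z‖ ^ 2) =
          t ^ 2 * (2 * (‖x - z‖ ^ 2 + ‖h‖ ^ 2)) := by rw [e4]
      nlinarith
    -- `a + b ≤ 2 m + t² ‖h‖² / m`
    have hR : 0 ≤ t ^ 2 * ‖h‖ ^ 2 := by positivity
    have h4 : a + b ≤ 2 * m + t ^ 2 * ‖h‖ ^ 2 / m := by
      apply le_of_sq_le_sq _ (by positivity)
      have h5 : (a + b) ^ 2 ≤ 2 * (a ^ 2 + b ^ 2) := by nlinarith [sq_nonneg (a - b)]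
      have h6 : (2 * m + t ^ 2 * ‖h‖ ^ 2 / m) ^ 2 =
          4 * m ^ 2 + 4 * (t ^ 2 * ‖h‖ ^ 2) + (t ^ 2 * ‖h‖ ^ 2 / m) ^ 2 := by
        field_simp
        ring
      rw [h6]
      nlinarith [sq_nonneg (t ^ 2 * ‖h‖ ^ 2 / m)]
    have h7 : t ^ 2 * ‖h‖ ^ 2 / m ≤ t ^ 2 / c * ‖h‖ ^ 2 := by
      rw [div_mul_eq_mul_div]
      exact div_le_div_of_nonneg_left hR hc h3
    linarith
  have h1 : (env P t (x + h) + env P t (x - h) - t ^ 2 / c * ‖h‖ ^ 2) / 2 ≤ env P t x := by
    apply le_env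
    intro z
    linarith [key z]
  linarith

end

theorem ME : MEStatement := by
  intro n P hP ε hε
  obtain ⟨c, hc, hL⟩ := hP.lower
  obtain ⟨C, hC, hU⟩ := hP.upper
  set t : ℝ := C ^ 2 / ε + C with ht
  have ht0 : 0 < t := by positivity
  have hCt : C / t ≤ 1 := by
    rw [div_le_one ht0, ht]
    have : 0 ≤ C ^ 2 / ε := by positivity
    linarith
  have hCt2 : C / t * C ≤ ε := by
    rw [div_mul_eq_mul_div, div_le_iff₀ ht0, ht, mul_add, mul_div_cancel₀ _ hε.ne']
    nlinarith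
  have hlow : ∀ x, c / 2 * ‖x‖ ≤ env P t x := by
    intro x
    have h1 := self_le_env hP hC hU ht0 x
    have h2 := env_nonneg P t x
    have h3 := hL x
    nlinarith
  refine ⟨env P t, ⟨fun x y => env_add hP ht0.le x y, fun a ha x => env_smul hP x ha,
    ⟨c / 2, by positivity, hlow⟩, ⟨C, hC, fun x => (env_le_self hP x).trans (hU x)⟩⟩, ?_, ?_⟩
  · intro x
    have h1 := self_le_env hP hC hU ht0 x
    have h2 := env_le_self (t := t) hP x
    rw [abs_sub_comm, abs_of_nonneg (by linarith)]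
    have h3 : C / t * env P t x ≤ C / t * (C * ‖x‖) :=
      mul_le_mul_of_nonneg_left (h2.trans (hU x)) (by positivity)
    have h4 : C / t * C * ‖x‖ ≤ ε * ‖x‖ := mul_le_mul_of_nonneg_right hCt2 (norm_nonneg x)
    nlinarith
  · refine ⟨t ^ 2 / (c / 2), by positivity, ?_⟩
    intro x h hx
    apply second x h (by positivity)
    have := hlow x
    rwa [hx, mul_one] at this

end Pool.Agent.Lib.MP_0b6b0e_gt.ZB.H4
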